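import Pool.Agent.K4H23.NZ.Spec

set_option autoImplicit false

open Finset Pointwise

namespace Pool.Agent.K4H23.NZ

/-- E1. Boxes: R = Icc 0 (Fin.cons (p-1) fun _ => r-1). -/
theorem e1 (e M p r : ℕ) (hp : 1 ≤ p) (hr : 1 ≤ r) : ∃ R : Finset (Fin (e + 1) → ℤ),
    R.card = p * r ^ e ∧ (R + slab e M 1).card ≤ (p + 1) * (r + M) ^ e := by
  refine ⟨Icc 0 (Fin.cons ((p : ℤ) - 1) fun _ => (r : ℤ) - 1), ?_, ?_⟩
  · rw [Pi.card_Icc, Fin.prod_univ_succ]
    simp only [Pi.zero_apply, Fin.cons_zero, Fin.cons_succ, Int.card_Icc, Finset.prod_const,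
      Finset.card_univ, Fintype.card_fin]
    congr 1
    · omega
    · congr 1
      omega
  · have hsub : Icc (0 : Fin (e + 1) → ℤ) (Fin.cons ((p : ℤ) - 1) fun _ => (r : ℤ) - 1) + slab e M 1
        ⊆ Icc 0 (Fin.cons (p : ℤ) fun _ => (r : ℤ) + M - 1) := by
      intro z hz
      rw [Finset.mem_add] at hz
      obtain ⟨x, hx, y, hy, rfl⟩ := hz
      rw [slab, Finset.mem_Icc] at hy
      rw [Finset.mem_Icc] at hx ⊢
      obtain ⟨hx0, hx1⟩ := hx
      obtain ⟨hy0, hy1⟩ := hy
      refine ⟨add_nonneg hx0 hy0, ?_⟩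
      intro i
      have h1 := hx1 i
      have h2 := hy1 i
      refine Fin.cases ?_ (fun j => ?_) i
      · have h1 := hx1 0
        have h2 := hy1 0
        simp only [Fin.cons_zero, Pi.add_apply] at h1 h2 ⊢
        push_cast at h1 h2 ⊢
        omega
      · have h1 := hx1 j.succ
        have h2 := hy1 j.succ
        simp only [Fin.cons_succ, Pi.add_apply] at h1 h2 ⊢
        omega
    refine (Finset.card_le_card hsub).trans (le_of_eq ?_)
    rw [Pi.card_Icc, Fin.prod_univ_succ]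
    simp only [Pi.zero_apply, Fin.cons_zero, Fin.cons_succ, Int.card_Icc, Finset.prod_const,
      Finset.card_univ, Fintype.card_fin]
    have h1 : ((p : ℤ) + 1 - 0).toNat = p + 1 := by omega
    have h2 : ((r : ℤ) + M - 1 + 1 - 0).toNat = r + M := by omega
    rw [h1, h2]

end Pool.Agent.K4H23.NZ
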